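import Pool.Agent.D76130.Lindelof

/-!
# `C_p(X, 𝔻)` normal (even Lindelöf) with non-normal square

A zero-dimensional Tychonoff space `X` such that the space of continuous maps from `X` to the
two-point discrete space, with the topology of pointwise convergence, is Lindelöf and normal,
while its square is not normal.
-/

namespace Pool.Agent.Results.MP_d76130_gt.SquareNotNormal

open Pool.Agent.D76130 unitInterval

theorem result :
    ∃ (X : Type) (_ : TopologicalSpace X),
      T2Space X ∧ T35Space X ∧
      TopologicalSpace.IsTopologicalBasis {s : Set X | IsClopen s} ∧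
      LindelofSpace {f : X → Bool // Continuous f} ∧
      NormalSpace {f : X → Bool // Continuous f} ∧
      ¬ NormalSpace ({f : X → Bool // Continuous f} × {f : X → Bool // Continuous f}) := by
  obtain ⟨θ', hθ'⟩ := exists_isTyping
  let θ : Br → Ty := fun v => θ' (enc v)
  have hθ : ∀ v, θ v = θ' (enc v) := fun _ => rfl
  haveI hL : LindelofSpace {f : X θ → Bool // Continuous f} := lindelof_Cp hθ' hθ
  have h35 : T35Space (X θ) := by
    refine { completely_regular := ?_ }
    intro x K hK hx
    obtain ⟨N, hN1, hN2, hN3⟩ := exists_clopen hK.isOpen_compl (a := x) hx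
    let g : Bool → I := fun b => if b then 0 else 1
    refine ⟨fun a => g (N.boolIndicator a),
      (continuous_of_discreteTopology (f := g)).comp
        ((continuous_boolIndicator_iff_isClopen _).2 hN1), ?_, ?_⟩
    · show g (N.boolIndicator x) = 0
      rw [(Set.mem_iff_boolIndicator _ _).1 hN2]
      rfl
    · intro a ha
      show g (N.boolIndicator a) = 1
      rw [(Set.notMem_iff_boolIndicator _ _).1 (fun h => hN3 h ha)]
      rfl
  refine ⟨X θ, inferInstance, inferInstance, h35, isTopologicalBasis_clopen, hL, inferInstance, ?_⟩
  exact not_normal fun b t => uncountable_I hθ' b t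

end Pool.Agent.Results.MP_d76130_gt.SquareNotNormal
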